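import Mathlib

/-!
# The multiplicity of the residue polynomial of a T-step
-/

set_option autoImplicit false

open Polynomial

namespace Pool.Agent.ALLh43

/-- The residue polynomial. -/
noncomputable def resPoly {k : Type*} [Field k] (J : Finset ℕ) (a : ℕ → k) (j₀ q : ℕ) : k[X] :=
  ∑ j ∈ J, C (a j) * X ^ ((j - j₀) / q)

theorem mult_lt {k : Type*} [Field k] {M q j₀ : ℕ} (hM : 0 < M) (hq : 0 < q)
    (hMk : (M : k) ≠ 0) {J : Finset ℕ} (hJ : ∀ j ∈ J, j ≤ M) (hj₀ : j₀ ∈ J)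
    (hmin : ∀ j ∈ J, j₀ ≤ j) (hdiv : ∀ j ∈ J, q ∣ j - j₀) (h1 : M - 1 ∉ J) {a : ℕ → k}
    (ha : ∀ j ∈ J, a j ≠ 0) {c : k} (hc : c ≠ 0) :
    resPoly J a j₀ q ≠ 0 ∧ (resPoly J a j₀ q).rootMultiplicity c < M := by
  classical
  set Φ := resPoly J a j₀ q with hΦ
  have hcoeff : ∀ n, Φ.coeff n = ∑ j ∈ J, if n = (j - j₀) / q then a j else 0 := by
    intro n
    simp only [hΦ, resPoly, finset_sum_coeff, coeff_C_mul, coeff_X_pow, mul_ite, mul_one, mul_zero]
  have h0 : Φ.coeff 0 = a j₀ := by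
    rw [hcoeff, Finset.sum_eq_single j₀]
    · rw [Nat.sub_self, Nat.zero_div, if_pos rfl]
    · intro j hj hne
      rw [if_neg]
      intro h
      obtain ⟨t, ht⟩ := hdiv j hj
      rw [ht, Nat.mul_div_cancel_left _ hq] at h
      rw [← h, mul_zero] at ht
      have := hmin j hj
      omega
    · intro h
      exact absurd hj₀ h
  have hne : Φ ≠ 0 := by
    intro h
    rw [h, coeff_zero] at h0
    exact ha j₀ hj₀ h0.symm
  refine ⟨hne, ?_⟩
  have hdeg : Φ.natDegree ≤ (M - j₀) / q := by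
    rw [natDegree_le_iff_coeff_eq_zero]
    intro n hn
    rw [hcoeff]
    refine Finset.sum_eq_zero fun j hj => ?_
    rw [if_neg]
    intro h
    have h2 : (j - j₀) / q ≤ (M - j₀) / q :=
      Nat.div_le_div_right (Nat.sub_le_sub_right (hJ j hj) _)
    omega
  have hle : Φ.rootMultiplicity c ≤ Φ.natDegree := by
    have h2 := pow_rootMultiplicity_dvd Φ c
    have h3 := natDegree_le_of_dvd h2 hne
    rwa [natDegree_pow, natDegree_X_sub_C, mul_one] at h3
  rcases lt_or_ge ((M - j₀) / q) M with hlt | hge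
  · omega
  have hq1 : q = 1 := by
    by_contra hq1
    have hq2 : 2 ≤ q := by omega
    have h2 : (M - j₀) / q ≤ M / 2 :=
      (Nat.div_le_div_right (Nat.sub_le _ _)).trans (Nat.div_le_div_left hq2 (by norm_num))
    omega
  have hj0 : j₀ = 0 := by
    rw [hq1, Nat.div_one] at hge
    omega
  by_contra hcon
  push Not at hcon
  have hdvd : (X - C c) ^ M ∣ Φ :=
    (pow_dvd_pow _ hcon).trans (pow_rootMultiplicity_dvd Φ c)
  obtain ⟨Ψ, hΨ⟩ := hdvd
  have hΨ0 : Ψ ≠ 0 := by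
    rintro rfl
    rw [mul_zero] at hΨ
    exact hne hΨ
  have hΨdeg : Ψ.natDegree = 0 := by
    have h2 : Φ.natDegree = M + Ψ.natDegree := by
      rw [hΨ, natDegree_mul (pow_ne_zero _ (X_sub_C_ne_zero c)) hΨ0, natDegree_pow,
        natDegree_X_sub_C, mul_one]
    rw [hq1, hj0, Nat.div_one, Nat.sub_zero] at hdeg
    omega
  obtain ⟨e, he⟩ := natDegree_eq_zero.mp hΨdeg
  have h2 : Φ.coeff (M - 1) = 0 := by
    rw [hcoeff]
    refine Finset.sum_eq_zero fun j hj => ?_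
    rw [if_neg]
    intro h
    rw [hq1, hj0, Nat.div_one, Nat.sub_zero] at h
    exact h1 (h ▸ hj)
  rw [hΨ, ← he, coeff_mul_C, sub_eq_add_neg, ← C_neg, coeff_X_add_C_pow] at h2
  have h3 : M - (M - 1) = 1 := by omega
  rw [h3, pow_one, Nat.choose_symm_of_eq_add (by omega : M = (M - 1) + 1), Nat.choose_one_right]
    at h2
  have h4 : e ≠ 0 := by
    rintro rfl
    rw [C_0] at he
    exact hΨ0 he.symm
  exact mul_ne_zero (mul_ne_zero (neg_ne_zero.mpr hc) hMk) h4 h2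

end Pool.Agent.ALLh43
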