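import Pool.Agent.Lib.ALL_h43.Theta
import Pool.Agent.Lib.ALL_h43.Mult

/-!
# The order drops
-/

set_option autoImplicit false

open Polynomial

namespace Pool.Agent.ALLh43

open Pool.Agent.TAO

universe u w

variable {k Ω : Type u} [Field k] [Field Ω] [Algebra k Ω] {𝕂 : Type w} [Field 𝕂] [LinearOrder 𝕂]
  [IsStrictOrderedRing 𝕂] {v : OVal 𝕂 Ω}

namespace NewF

variable {Γ : AddSubgroup 𝕂} {χ : 𝕂 → Ω} {d : ℕ} {y : Fin d → Ω} {S H : Subalgebra k Ω} {u : Ω}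
  {κ : 𝕂} {q : ℕ} {χ' : 𝕂 → Ω} {n : 𝕂 → ℤ → ℤ} {N : ℕ} {P : ℕ → Ω} {X : Ω}

/-- The order drops. -/
theorem order (h : NewF v Γ χ y S u κ q χ' n H) (triv : ∀ c : k, c ≠ 0 → v (algebraMap k Ω c) = 0)
    (res : ∀ g : Ω, g ≠ 0 → v g = 0 → ∃ c : k, c ≠ 0 ∧ VPos v (g - algebraMap k Ω c))
    (hd : Dom v N P X) (hu : u = ∑ j ∈ Finset.range (N + 1), P j * X ^ j)
    (hP : ∀ j ≤ N, P j = 0 ∨ MonIn v Γ χ S (P j)) (hX : 0 < v X) {M : ℕ} (hM : 0 < M)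
    (hMk : (M : k) ≠ 0) {b : ℕ → Ω} (hb : ∀ j ≤ M, b j = 0 ∨ MonIn v Γ χ S (b j))
    (hbM : b M ≠ 0) (hbMv : v (b M) = 0) (hb1 : b (M - 1) ≠ 0 → v X < v (b (M - 1))) {g : Ω} (hg : g ∈ H) {f : Ω}
    (hf : f = ∑ j ∈ Finset.range (M + 1), b j * X ^ j + X ^ (M + 1) * g) {c : k} (hc0 : c ≠ 0)
    (hc : VPos v (u ^ q / χ ((q : 𝕂) * κ) - algebraMap k Ω c)) :
    ∃ μ ∈ ext Γ κ, ∃ M' < M, ∃ U ∈ H, U ≠ 0 ∧ v U = 0 ∧
      JJ (ext Γ κ) χ' y H (f / χ' μ - U * (u ^ q / χ ((q : 𝕂) * κ) - algebraMap k Ω c) ^ M') := by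
  classical
  have hκ : κ = v (P 1) + v X := by rw [← h.u_val, hu]; exact hd.val.2
  have hP1 : MonIn v Γ χ S (P 1) := (hP 1 hd.one_le).resolve_left hd.P1
  have hΓ1 : -v (P 1) ∈ Γ := Γ.neg_mem hP1.2.1
  have hu0 := h.u_ne
  have hX0 := hd.X_ne
  obtain ⟨θ, hθH, e₀, he₀, hθ0, hθv, hθJ, hXθ⟩ := h.theta res hd hu hP
  set W : Ω := u ^ q / χ ((q : 𝕂) * κ) with hW
  have hWH : W ∈ H := h.W_mem
  have hW0 : W ≠ 0 := h.W_ne
  have hWv : v W = 0 := h.W_val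
  -- the values
  let r : ℕ → 𝕂 := fun j => v (b j) + j * v X
  let J := (Finset.range (M + 1)).filter fun j => b j ≠ 0
  have hJ : ∀ {j}, j ∈ J ↔ j ≤ M ∧ b j ≠ 0 := by
    intro j
    simp only [J, Finset.mem_filter, Finset.mem_range]
    constructor
    · rintro ⟨h1, h2⟩; exact ⟨by omega, h2⟩
    · rintro ⟨h1, h2⟩; exact ⟨by omega, h2⟩
  have hMJ : M ∈ J := hJ.mpr ⟨le_rfl, hbM⟩
  obtain ⟨j₁, hj₁, hmin₁⟩ := Finset.exists_min_image J r ⟨M, hMJ⟩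
  set μ : 𝕂 := r j₁ with hμ
  let J₀ := J.filter fun j => r j = μ
  have hJ₀ : ∀ {j}, j ∈ J₀ ↔ j ∈ J ∧ r j = μ := by
    intro j
    simp only [J₀, Finset.mem_filter]
  obtain ⟨j₀, hj₀, hmin₀⟩ := Finset.exists_min_image J₀ id ⟨j₁, hJ₀.mpr ⟨hj₁, rfl⟩⟩
  simp only [id] at hmin₀
  have hmon : ∀ j ∈ J, MonIn v Γ χ S (b j) := fun j hj =>
    (hb j (hJ.mp hj).1).resolve_left (hJ.mp hj).2
  have hδ : ∀ j : ℕ, (j : 𝕂) * -v (P 1) ∈ Γ := fun j => by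
    rw [← nsmul_eq_mul]
    exact Γ.nsmul_mem hΓ1 j
  -- powers of X
  have hXpow : ∀ j : ℕ, X ^ j = χ ((j : 𝕂) * -v (P 1)) * u ^ (j : ℤ) * θ ^ j := by
    intro j
    rw [h.old.toMon.nat_mul hΓ1, zpow_natCast, ← mul_pow, ← mul_pow, ← hXθ]
  let nn : ℕ → ℤ := fun j => n (v (b j) + (j : 𝕂) * -v (P 1)) j
  have hr : ∀ j, v (b j) + (j : 𝕂) * -v (P 1) + ((j : ℤ) : 𝕂) * κ = r j := by
    intro j
    simp only [r]
    rw [hκ]
    push_cast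
    ring
  have hrΓ : ∀ j ∈ J, r j ∈ ext Γ κ := by
    intro j hj
    rw [← hr j]
    exact add_mul_mem_ext κ (Γ.add_mem (hmon j hj).2.1 (hδ j)) _
  have hμΓ : μ ∈ ext Γ κ := hrΓ j₁ hj₁
  have hχμ : χ' μ ≠ 0 := h.new.ne _ hμΓ
  have hterm : ∀ j ∈ J, b j * X ^ j = χ' (r j) * (W ^ nn j * (b j / χ (v (b j))) * θ ^ j) := by
    intro j hj
    have h1 := h.mul_zpow (hmon j hj) (hδ j) (j : ℤ)
    rw [hXpow, ← mul_assoc, ← mul_assoc, h1, hr j]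
    ring
  -- residues of the coefficients
  have hεall : ∀ j, ∃ a : k, j ∈ J → a ≠ 0 ∧
      JJ (ext Γ κ) χ' y H (b j / χ (v (b j)) - algebraMap k Ω a) := by
    intro j
    by_cases hj : j ∈ J
    · have hm := hmon j hj
      have hχ0 := h.old.ne _ hm.2.1
      obtain ⟨a, ha, haJ⟩ := h.exists_const res hm.2.2 (div_ne_zero hm.1 hχ0)
        (by rw [v.map_div hm.1 hχ0, h.old.val _ hm.2.1, sub_self])
      exact ⟨a, fun _ => ⟨ha, haJ⟩⟩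
    · exact ⟨0, fun hj' => absurd hj' hj⟩
  choose a ha using hεall
  have hle₀ : ∀ j ∈ J₀, j₀ ≤ j := hmin₀
  have hdvd : ∀ j ∈ J₀, (j : ℤ) - j₀ = q * (nn j - nn j₀) := by
    intro j hj
    have hj' := hJ₀.mp hj
    have hj₀' := hJ₀.mp hj₀
    refine h.dif _ (Γ.add_mem (hmon j hj'.1).2.1 (hδ j)) _
      (Γ.add_mem (hmon j₀ hj₀'.1).2.1 (hδ j₀)) _ _ ?_
    rw [hr, hr, hj'.2, hj₀'.2]
  have hq0 : (0 : ℤ) < q := by exact_mod_cast h.q_pos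
  have hnn : ∀ j ∈ J₀, nn j = nn j₀ + ((j - j₀) / q : ℕ) := by
    intro j hj
    have h1 := hdvd j hj
    have h2 := hle₀ j hj
    have h3 : ((j - j₀ : ℕ) : ℤ) = q * (nn j - nn j₀) := by
      rw [Nat.cast_sub h2]
      exact h1
    rw [Int.natCast_div, h3, Int.mul_ediv_cancel_left _ hq0.ne']
    ring
  have hdiv : ∀ j ∈ J₀, q ∣ j - j₀ := by
    intro j hj
    have h1 := hdvd j hj
    have h2 := hle₀ j hj
    have h3 : (q : ℤ) ∣ ((j - j₀ : ℕ) : ℤ) := by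
      rw [Nat.cast_sub h2, h1]
      exact dvd_mul_right _ _
    exact_mod_cast h3
  -- the residue polynomial
  let A : ℕ → k := fun j => a j * e₀ ^ j
  have hM1 : M - 1 ∉ J₀ := by
    intro hj
    have h1 := hJ₀.mp hj
    have h2 := hb1 (hJ.mp h1.1).2
    have h3 := hmin₁ M hMJ
    rw [← h1.2] at h3
    simp only [r] at h3
    rw [hbMv, zero_add] at h3
    have h4 : ((M - 1 : ℕ) : 𝕂) = (M : 𝕂) - 1 := by
      rw [Nat.cast_sub (by omega), Nat.cast_one]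
    rw [h4, sub_mul, one_mul] at h3
    linarith
  obtain ⟨hΦ0, hΦlt⟩ := mult_lt (a := A) hM h.q_pos hMk
    (fun j hj => (hJ.mp (hJ₀.mp hj).1).1) hj₀ hle₀ hdiv hM1
    (fun j hj => mul_ne_zero (ha j (hJ₀.mp hj).1).1 (pow_ne_zero _ he₀)) hc0
  set Φ := resPoly J₀ A j₀ q with hΦ
  set M' := Φ.rootMultiplicity c with hM'
  obtain ⟨Φ₁, hΦ₁, hnd⟩ := exists_eq_pow_rootMultiplicity_mul_and_not_dvd Φ hΦ0 c
  have hΦ₁c : Φ₁.eval c ≠ 0 := by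
    rw [dvd_iff_isRoot] at hnd
    exact hnd
  have hmemaeval : ∀ Ψ : Polynomial k, aeval W Ψ ∈ H := by
    intro Ψ
    rw [aeval_eq_sum_range]
    exact H.sum_mem fun i _ => H.smul_mem (H.pow_mem hWH i) _
  -- the unit
  have hU1 : aeval W Φ₁ ≠ 0 ∧ v (aeval W Φ₁) = 0 := by
    obtain ⟨Ψ, hΨ⟩ : Polynomial.X - C c ∣ Φ₁ - C (Φ₁.eval c) := by
      rw [dvd_iff_isRoot, IsRoot.def, eval_sub, eval_C, sub_self]
    have e1 : aeval W Φ₁ = algebraMap k Ω (Φ₁.eval c) +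
        (W - algebraMap k Ω c) * aeval W Ψ := by
      have : Φ₁ = C (Φ₁.eval c) + (Polynomial.X - C c) * Ψ := by rw [← hΨ]; ring
      conv_lhs => rw [this]
      rw [map_add, map_mul, map_sub, aeval_C, aeval_C, aeval_X]
    rw [e1]
    exact val_add_vpos ((_root_.map_ne_zero _).mpr hΦ₁c) (triv _ hΦ₁c)
      (hc.mul (h.new.nonneg _ (hmemaeval Ψ)))
  refine ⟨μ, hμΓ, M', hΦlt, W ^ nn j₀ * aeval W Φ₁, H.mul_mem (h.W_zpow_mem _) (hmemaeval Φ₁),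
    mul_ne_zero (zpow_ne_zero _ hW0) hU1.1, ?_, ?_⟩
  · rw [v.map_mul (zpow_ne_zero _ hW0) hU1.1, v.map_zpow hW0, hWv, hU1.2, mul_zero, add_zero]
  have eΦ : W ^ nn j₀ * aeval W Φ₁ * (W - algebraMap k Ω c) ^ M' =
      ∑ j ∈ J₀, W ^ nn j * algebraMap k Ω (A j) := by
    have e1 : aeval W Φ₁ * (W - algebraMap k Ω c) ^ M' = aeval W Φ := by
      conv_rhs => rw [hΦ₁]
      rw [map_mul, map_pow, map_sub, aeval_X, aeval_C]
      ring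
    rw [mul_assoc, e1, hΦ, resPoly, map_sum, Finset.mul_sum]
    refine Finset.sum_congr rfl fun j hj => ?_
    rw [map_mul, aeval_C, map_pow, aeval_X, hnn j hj, zpow_add₀ hW0, zpow_natCast]
    ring
  rw [eΦ]
  -- decomposition of `f`
  have hfs : f = ∑ j ∈ J₀, b j * X ^ j + ∑ j ∈ J \ J₀, b j * X ^ j + X ^ (M + 1) * g := by
    rw [hf]
    congr 1
    have h1 : ∑ j ∈ Finset.range (M + 1), b j * X ^ j = ∑ j ∈ J, b j * X ^ j := by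
      simp only [J]
      rw [Finset.sum_filter]
      refine Finset.sum_congr rfl fun j _ => ?_
      split_ifs with h2
      · rfl
      · push Not at h2
        rw [h2, zero_mul]
    rw [h1, add_comm]
    exact (Finset.sum_sdiff (Finset.filter_subset _ _)).symm
  have hdiff : ∀ {γ : 𝕂}, γ ∈ ext Γ κ → χ' γ / χ' μ = χ' (γ - μ) := fun hγ =>
    (h.new.toMon.sub hγ hμΓ).symm
  have h1 : JJ (ext Γ κ) χ' y H ((∑ j ∈ J \ J₀, b j * X ^ j) / χ' μ) := by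
    rw [Finset.sum_div]
    refine h.new.JJ_sum _ _ fun j hj => ?_
    have hj' := Finset.mem_sdiff.mp hj
    have hlt : μ < r j := by
      refine lt_of_le_of_ne (hmin₁ j hj'.1) fun h2 => hj'.2 (hJ₀.mpr ⟨hj'.1, h2.symm⟩)
    rw [hterm j hj'.1, mul_div_right_comm, hdiff (hrΓ j hj'.1)]
    exact JJ_chi ((ext Γ κ).sub_mem (hrΓ j hj'.1) hμΓ) (sub_pos.mpr hlt)
      (H.mul_mem (H.mul_mem (h.W_zpow_mem _) (h.le (hmon j hj'.1).2.2)) (H.pow_mem hθH j))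
  have h2 : JJ (ext Γ κ) χ' y H (X ^ (M + 1) * g / χ' μ) := by
    have hm1 : ((M + 1 : ℕ) : 𝕂) * -v (P 1) ∈ Γ := hδ (M + 1)
    have e1 := h.eq _ hm1 ((M + 1 : ℕ) : ℤ)
    have e2 : ((M + 1 : ℕ) : 𝕂) * -v (P 1) + (((M + 1 : ℕ) : ℤ) : 𝕂) * κ =
        ((M + 1 : ℕ) : 𝕂) * v X := by
      rw [hκ]
      push_cast
      ring
    have hmem : ((M + 1 : ℕ) : 𝕂) * v X ∈ ext Γ κ := by
      rw [← e2]
      exact add_mul_mem_ext κ hm1 _
    rw [e2] at e1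
    have hle : μ ≤ (M : 𝕂) * v X := by
      have := hmin₁ M hMJ
      simp only [r] at this
      rw [hbMv, zero_add] at this
      exact this
    have hlt : μ < ((M + 1 : ℕ) : 𝕂) * v X := by
      push_cast
      rw [add_mul, one_mul]
      linarith
    rw [hXpow, e1, mul_assoc, mul_assoc, mul_div_right_comm, hdiff hmem]
    exact JJ_chi ((ext Γ κ).sub_mem hmem hμΓ) (sub_pos.mpr hlt)
      (H.mul_mem (h.W_zpow_mem _) (H.mul_mem (H.pow_mem hθH _) hg))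
  have h3 : JJ (ext Γ κ) χ' y H ((∑ j ∈ J₀, b j * X ^ j) / χ' μ -
      ∑ j ∈ J₀, W ^ nn j * algebraMap k Ω (A j)) := by
    rw [Finset.sum_div, ← Finset.sum_sub_distrib]
    refine h.new.JJ_sum _ _ fun j hj => ?_
    have hj' := hJ₀.mp hj
    have hm := hmon j hj'.1
    have hεH := h.le hm.2.2
    rw [hterm j hj'.1, hj'.2, mul_div_cancel_left₀ _ hχμ, mul_assoc, ← mul_sub]
    refine JJ.mul ?_ (h.W_zpow_mem _)
    simp only [A]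
    rw [map_mul, map_pow]
    refine h.new.JJ_mul_sub (ha j hj'.1).2 (h.new.JJ_pow_sub hθJ hθH (H.algebraMap_mem _) j) hεH
      (H.pow_mem (H.algebraMap_mem _) j)
  rw [hfs, add_div, add_div]
  have h4 := h.new.JJ_add (h.new.JJ_add h3 h1) h2
  have e5 : (∑ j ∈ J₀, b j * X ^ j) / χ' μ - ∑ j ∈ J₀, W ^ nn j * algebraMap k Ω (A j) +
      (∑ j ∈ J \ J₀, b j * X ^ j) / χ' μ + X ^ (M + 1) * g / χ' μ =
      (∑ j ∈ J₀, b j * X ^ j) / χ' μ + (∑ j ∈ J \ J₀, b j * X ^ j) / χ' μ +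
        X ^ (M + 1) * g / χ' μ - ∑ j ∈ J₀, W ^ nn j * algebraMap k Ω (A j) := by ring
  rwa [e5] at h4

end NewF

end Pool.Agent.ALLh43
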