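import Mathlib

/-!
# The lattice of a T-step

`Γ` is a finitely generated subgroup of an ordered field, `q ≥ 1` is the order of `κ` modulo `Γ`.
The extension `Γ' = Γ + ℤ κ` is free, so it has a section `s = (s₁, s₂)` into `Γ ⊕ ℤ`; the
monomials of the new frame are `χ' γ = χ (s₁ γ) u ^ (s₂ γ)`, and they differ from the old ones by
powers of `W = u ^ q / χ (q κ)`.
-/

set_option autoImplicit false

namespace Pool.Agent.ALLh43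

universe w

variable {𝕂 : Type w} [Field 𝕂] [LinearOrder 𝕂] [IsStrictOrderedRing 𝕂]

/-- `Γ + ℤ κ`. -/
def ext (Γ : AddSubgroup 𝕂) (κ : 𝕂) : AddSubgroup 𝕂 := Γ ⊔ AddSubgroup.zmultiples κ

theorem le_ext (Γ : AddSubgroup 𝕂) (κ : 𝕂) : Γ ≤ ext Γ κ := le_sup_left

theorem mem_ext (Γ : AddSubgroup 𝕂) (κ : 𝕂) : κ ∈ ext Γ κ :=
  (le_sup_right : AddSubgroup.zmultiples κ ≤ _) (AddSubgroup.mem_zmultiples κ)

theorem mem_ext_iff {Γ : AddSubgroup 𝕂} {κ γ : 𝕂} :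
    γ ∈ ext Γ κ ↔ ∃ δ ∈ Γ, ∃ m : ℤ, γ = δ + m * κ := by
  rw [ext, AddSubgroup.mem_sup]
  constructor
  · rintro ⟨δ, hδ, ε, hε, rfl⟩
    obtain ⟨m, rfl⟩ := AddSubgroup.mem_zmultiples_iff.mp hε
    exact ⟨δ, hδ, m, by rw [zsmul_eq_mul]⟩
  · rintro ⟨δ, hδ, m, rfl⟩
    exact ⟨δ, hδ, m * κ, AddSubgroup.mem_zmultiples_iff.mpr ⟨m, by rw [zsmul_eq_mul]⟩, rfl⟩

theorem ext_fg {Γ : AddSubgroup 𝕂} (h : Γ.FG) (κ : 𝕂) : (ext Γ κ).FG := by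
  obtain ⟨S, hS⟩ := h
  refine ⟨insert κ S, ?_⟩
  rw [Finset.coe_insert, Set.insert_eq, AddSubgroup.closure_union, hS, ext, sup_comm,
    AddSubgroup.zmultiples_eq_closure]

/-- The section. -/
theorem exists_section {Γ : AddSubgroup 𝕂} (hΓ : Γ.FG) (κ : 𝕂) :
    ∃ (s₁ : ext Γ κ →+ 𝕂) (s₂ : ext Γ κ →+ ℤ), (∀ γ, s₁ γ ∈ Γ) ∧
      ∀ γ : ext Γ κ, (γ : 𝕂) = s₁ γ + s₂ γ * κ := by
  classical
  have hfg : (ext Γ κ).FG := ext_fg hΓ κ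
  have : AddGroup.FG (ext Γ κ) := (AddGroup.fg_iff_addSubgroup_fg _).mpr hfg
  have : Module.Finite ℤ (ext Γ κ) := Module.Finite.iff_addGroup_fg.mpr inferInstance
  have : Module.IsTorsionFree ℤ (ext Γ κ) := by
    have : Module.IsTorsionFree ℤ 𝕂 := inferInstance
    exact Function.Injective.moduleIsTorsionFree _ (Subtype.val_injective) (fun _ _ => rfl)
  have : Module.Free ℤ (ext Γ κ) := Module.free_of_finite_type_torsion_free'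
  let g : (Γ × ℤ) →ₗ[ℤ] ext Γ κ :=
    AddMonoidHom.toIntLinearMap
      { toFun := fun x => ⟨(x.1 : 𝕂) + x.2 * κ, mem_ext_iff.mpr ⟨x.1, x.1.2, x.2, rfl⟩⟩
        map_zero' := by
          apply Subtype.ext
          simp
        map_add' := fun x y => by
          apply Subtype.ext
          simp
          ring }
  have hg : Function.Surjective g := by
    rintro ⟨γ, hγ⟩
    obtain ⟨δ, hδ, m, rfl⟩ := mem_ext_iff.mp hγ
    exact ⟨(⟨δ, hδ⟩, m), rfl⟩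
  obtain ⟨s, hs⟩ := Module.projective_lifting_property g LinearMap.id hg
  refine ⟨(AddSubgroup.subtype Γ).comp ((AddMonoidHom.fst Γ ℤ).comp s.toAddMonoidHom),
    (AddMonoidHom.snd Γ ℤ).comp s.toAddMonoidHom, fun γ => ?_, fun γ => ?_⟩
  · exact (s γ).1.2
  · have h := congrArg (fun t => (t γ : ext Γ κ)) hs
    have h' : ((g (s γ) : ext Γ κ) : 𝕂) = γ := by
      rw [← LinearMap.comp_apply, hs, LinearMap.id_apply]
    exact h'.symm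

/-- The section is a section modulo `(q κ, - q)`. -/
theorem section_of_mem {Γ : AddSubgroup 𝕂} {κ : 𝕂} {q : ℕ} (hq : 0 < q)
    (hmin : ∀ m : ℤ, (m : 𝕂) * κ ∈ Γ → (q : ℤ) ∣ m)
    {s₁ : ext Γ κ →+ 𝕂} {s₂ : ext Γ κ →+ ℤ} (hs₁ : ∀ γ, s₁ γ ∈ Γ)
    (hs : ∀ γ : ext Γ κ, (γ : 𝕂) = s₁ γ + s₂ γ * κ) {γ : 𝕂} (hγ : γ ∈ Γ) (m : ℤ)
    (h : γ + m * κ ∈ ext Γ κ) :
    ∃ n : ℤ, s₂ ⟨γ + m * κ, h⟩ = m - n * q ∧ s₁ ⟨γ + m * κ, h⟩ = γ + n * ((q : 𝕂) * κ) := by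
  have e := hs ⟨γ + m * κ, h⟩
  have h1 := hs₁ ⟨γ + m * κ, h⟩
  simp only at e
  have h2 : ((m - s₂ ⟨γ + m * κ, h⟩ : ℤ) : 𝕂) * κ ∈ Γ := by
    have : ((m - s₂ ⟨γ + m * κ, h⟩ : ℤ) : 𝕂) * κ = s₁ ⟨γ + m * κ, h⟩ - γ := by
      push_cast
      linear_combination e
    rw [this]
    exact Γ.sub_mem h1 hγ
  obtain ⟨n, hn⟩ := hmin _ h2
  refine ⟨n, by linarith, ?_⟩
  have h3 : ((m - s₂ ⟨γ + m * κ, h⟩ : ℤ) : 𝕂) = (q : 𝕂) * n := by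
    rw [hn]
    push_cast
    ring
  push_cast at h3
  linear_combination (-1 : 𝕂) * e + κ * h3

end Pool.Agent.ALLh43
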