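import Pool.Agent.Lib.TAO.Basic
import Pool.Agent.Lib.ALL_h43.Section

/-!
# Monomials of a T-step
-/

set_option autoImplicit false

namespace Pool.Agent.ALLh43

open Pool.Agent.TAO

universe u w

variable {k Ω : Type u} [Field k] [Field Ω] [Algebra k Ω] {𝕂 : Type w} [Field 𝕂] [LinearOrder 𝕂]
  [IsStrictOrderedRing 𝕂] {v : OVal 𝕂 Ω}

/-- `χ` is a system of monomials on `Γ`. -/
structure Mon (v : OVal 𝕂 Ω) (Γ : AddSubgroup 𝕂) (χ : 𝕂 → Ω) : Prop where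
  ne : ∀ γ ∈ Γ, χ γ ≠ 0
  add : ∀ γ ∈ Γ, ∀ δ ∈ Γ, χ (γ + δ) = χ γ * χ δ
  val : ∀ γ ∈ Γ, v (χ γ) = γ

namespace Mon

variable {Γ : AddSubgroup 𝕂} {χ : 𝕂 → Ω} (h : Mon v Γ χ)

include h

theorem zero : χ 0 = 1 := by
  have h1 := h.add 0 Γ.zero_mem 0 Γ.zero_mem
  rw [add_zero] at h1
  have h2 := h.ne 0 Γ.zero_mem
  exact mul_left_cancel₀ h2 (by rw [← h1, mul_one])

theorem neg {γ : 𝕂} (hγ : γ ∈ Γ) : χ (-γ) = (χ γ)⁻¹ := by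
  have h1 := h.add γ hγ (-γ) (Γ.neg_mem hγ)
  rw [add_neg_cancel, h.zero] at h1
  exact eq_inv_of_mul_eq_one_right h1.symm

theorem sub {γ δ : 𝕂} (hγ : γ ∈ Γ) (hδ : δ ∈ Γ) : χ (γ - δ) = χ γ / χ δ := by
  rw [sub_eq_add_neg, h.add γ hγ _ (Γ.neg_mem hδ), h.neg hδ, div_eq_mul_inv]

theorem nat_mul {γ : 𝕂} (hγ : γ ∈ Γ) (m : ℕ) : χ ((m : 𝕂) * γ) = χ γ ^ m := by
  induction m with
  | zero => rw [Nat.cast_zero, zero_mul, h.zero, pow_zero]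
  | succ m ih =>
    have h1 : (m : 𝕂) * γ ∈ Γ := by
      rw [← nsmul_eq_mul]
      exact Γ.nsmul_mem hγ m
    rw [Nat.cast_succ, add_mul, one_mul, h.add _ h1 _ hγ, ih, pow_succ]

theorem int_mul {γ : 𝕂} (hγ : γ ∈ Γ) (m : ℤ) : χ ((m : 𝕂) * γ) = χ γ ^ m := by
  obtain ⟨n, rfl | rfl⟩ := m.eq_nat_or_neg
  · rw [Int.cast_natCast, h.nat_mul hγ, zpow_natCast]
  · have h1 : (n : 𝕂) * γ ∈ Γ := by
      rw [← nsmul_eq_mul]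
      exact Γ.nsmul_mem hγ n
    rw [Int.cast_neg, Int.cast_natCast, neg_mul, h.neg h1, h.nat_mul hγ, zpow_neg, zpow_natCast]

end Mon

theorem int_mul_mem {Γ : AddSubgroup 𝕂} {γ : 𝕂} (hγ : γ ∈ Γ) (m : ℤ) : (m : 𝕂) * γ ∈ Γ := by
  rw [← zsmul_eq_mul]
  exact Γ.zsmul_mem hγ m

theorem add_mul_mem_ext {Γ : AddSubgroup 𝕂} (κ : 𝕂) {γ : 𝕂} (hγ : γ ∈ Γ) (m : ℤ) :
    γ + m * κ ∈ ext Γ κ := mem_ext_iff.mpr ⟨γ, hγ, m, rfl⟩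

/-- The monomials of a T-step: `κ = v u` has order exactly `q` modulo `Γ`, `W = u ^ q / χ (q κ)`. -/
theorem exists_chi {Γ : AddSubgroup 𝕂} (hΓ : Γ.FG) {χ : 𝕂 → Ω} (hχ : Mon v Γ χ) {u : Ω}
    (hu : u ≠ 0) {κ : 𝕂} (hκ : v u = κ) {q : ℕ} (hq : 0 < q) (hqκ : (q : 𝕂) * κ ∈ Γ)
    (hmin : ∀ m : ℤ, (m : 𝕂) * κ ∈ Γ → (q : ℤ) ∣ m) :
    ∃ χ' : 𝕂 → Ω, Mon v (ext Γ κ) χ' ∧ ∃ n : 𝕂 → ℤ → ℤ,
      (∀ γ ∈ Γ, ∀ m : ℤ, χ γ * u ^ m =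
        χ' (γ + m * κ) * (u ^ q / χ ((q : 𝕂) * κ)) ^ n γ m) ∧
      ∀ γ ∈ Γ, ∀ δ ∈ Γ, ∀ m m' : ℤ, γ + m * κ = δ + m' * κ →
        m - m' = q * (n γ m - n δ m') := by
  classical
  obtain ⟨s₁, s₂, hs₁, hs⟩ := exists_section hΓ κ
  have hq0 : (q : ℤ) ≠ 0 := by exact_mod_cast hq.ne'
  let χ' : 𝕂 → Ω := fun γ => if h : γ ∈ ext Γ κ then χ (s₁ ⟨γ, h⟩) * u ^ s₂ ⟨γ, h⟩ else 0
  have hχ' : ∀ {γ : 𝕂} (h : γ ∈ ext Γ κ), χ' γ = χ (s₁ ⟨γ, h⟩) * u ^ s₂ ⟨γ, h⟩ := by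
    intro γ h
    simp only [χ', dif_pos h]
  let n : 𝕂 → ℤ → ℤ := fun γ m =>
    if h : γ + m * κ ∈ ext Γ κ then (m - s₂ ⟨γ + m * κ, h⟩) / q else 0
  have hn : ∀ {γ : 𝕂} (_ : γ ∈ Γ) (m : ℤ) (h : γ + m * κ ∈ ext Γ κ),
      s₂ ⟨γ + m * κ, h⟩ = m - n γ m * q ∧
        s₁ ⟨γ + m * κ, h⟩ = γ + n γ m * ((q : 𝕂) * κ) := by
    intro γ hγ m h
    obtain ⟨n', h1, h2⟩ := section_of_mem hq hmin hs₁ hs hγ m h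
    have h3 : n γ m = n' := by
      simp only [n, dif_pos h, h1]
      rw [sub_sub_cancel, Int.mul_ediv_cancel _ hq0]
    rw [h3]
    exact ⟨h1, h2⟩
  refine ⟨χ', ⟨fun γ h => ?_, fun γ h δ h' => ?_, fun γ h => ?_⟩, n, fun γ hγ m => ?_,
    fun γ hγ δ hδ m m' he => ?_⟩
  · rw [hχ' h]
    exact mul_ne_zero (hχ.ne _ (hs₁ _)) (zpow_ne_zero _ hu)
  · have e : (⟨γ + δ, (ext Γ κ).add_mem h h'⟩ : ext Γ κ) = ⟨γ, h⟩ + ⟨δ, h'⟩ := rfl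
    rw [hχ' h, hχ' h', hχ' ((ext Γ κ).add_mem h h'), e, map_add, map_add,
      hχ.add _ (hs₁ _) _ (hs₁ _), zpow_add₀ hu]
    ring
  · rw [hχ' h, v.map_mul (hχ.ne _ (hs₁ _)) (zpow_ne_zero _ hu), hχ.val _ (hs₁ _),
      v.map_zpow hu, hκ]
    exact (hs ⟨γ, h⟩).symm
  · have h := add_mul_mem_ext κ hγ m
    obtain ⟨h1, h2⟩ := hn hγ m h
    have hq' : χ ((q : 𝕂) * κ) ≠ 0 := hχ.ne _ hqκ
    have h3 : (n γ m : 𝕂) * ((q : 𝕂) * κ) ∈ Γ := int_mul_mem hqκ _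
    rw [hχ' h, h1, h2, hχ.add _ hγ _ h3, hχ.int_mul hqκ, zpow_sub₀ hu, div_zpow, ← zpow_natCast,
      ← zpow_mul, mul_comm (q : ℤ)]
    field_simp
  · have h := add_mul_mem_ext κ hγ m
    have h' := add_mul_mem_ext κ hδ m'
    obtain ⟨h1, -⟩ := hn hγ m h
    obtain ⟨h2, -⟩ := hn hδ m' h'
    have e : (⟨γ + m * κ, h⟩ : ext Γ κ) = ⟨δ + m' * κ, h'⟩ := Subtype.ext he
    rw [e, h2] at h1
    linear_combination -h1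

end Pool.Agent.ALLh43
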