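import Pool.Agent.Lib.ALL_h43.Mon

/-!
# The step of block 5, any rank: new monomials, new last parameter, order drop
-/

set_option autoImplicit false

open Polynomial

namespace Pool.Agent.ALLh43

open Pool.Agent.TAO

universe u w

variable {k Ω : Type u} [Field k] [Field Ω] [Algebra k Ω] {𝕂 : Type w} [Field 𝕂] [LinearOrder 𝕂]
  [IsStrictOrderedRing 𝕂] {v : OVal 𝕂 Ω}

/-- A local ring containing the monomials of value `≥ 0` and the parameters `y`. -/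
structure MF (v : OVal 𝕂 Ω) (Γ : AddSubgroup 𝕂) (χ : 𝕂 → Ω) {d : ℕ} (y : Fin d → Ω)
    (H : Subalgebra k Ω) : Prop extends Mon v Γ χ where
  pos : ∃ γ ∈ Γ, 0 < γ
  mem : ∀ γ ∈ Γ, 0 ≤ γ → χ γ ∈ H
  y_mem : ∀ i, y i ∈ H
  y_pos : ∀ i, VPos v (y i)
  nonneg : ∀ f ∈ H, v.Ge 0 f
  inv : ∀ f ∈ H, f ≠ 0 → v f = 0 → f⁻¹ ∈ H

/-- `f` lies in the ideal `(y, χ(> 0))` of `H`. -/
def JJ (Γ : AddSubgroup 𝕂) (χ : 𝕂 → Ω) {d : ℕ} (y : Fin d → Ω) (H : Subalgebra k Ω) (f : Ω) :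
    Prop :=
  ∃ γ ∈ Γ, 0 < γ ∧ ∃ a ∈ H, ∃ b : Fin d → Ω, (∀ i, b i ∈ H) ∧ f = χ γ * a + ∑ i, y i * b i

/-- `f` is a monomial times a unit. -/
def MonIn (v : OVal 𝕂 Ω) (Γ : AddSubgroup 𝕂) (χ : 𝕂 → Ω) (H : Subalgebra k Ω) (f : Ω) : Prop :=
  f ≠ 0 ∧ v f ∈ Γ ∧ f / χ (v f) ∈ H

section Basic

variable {Γ : AddSubgroup 𝕂} {χ : 𝕂 → Ω} {d : ℕ} {y : Fin d → Ω} {H : Subalgebra k Ω}

theorem MF.JJ_zero (h : MF v Γ χ y H) : JJ Γ χ y H (0 : Ω) := by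
  obtain ⟨γ, hγ, h0⟩ := h.pos
  exact ⟨γ, hγ, h0, 0, H.zero_mem, 0, fun _ => H.zero_mem, by simp⟩

theorem MF.JJ_add (h : MF v Γ χ y H) {f g : Ω} (hf : JJ Γ χ y H f) (hg : JJ Γ χ y H g) :
    JJ Γ χ y H (f + g) := by
  obtain ⟨γ, hγ, h0, a, ha, b, hb, rfl⟩ := hf
  obtain ⟨δ, hδ, h0', a', ha', b', hb', rfl⟩ := hg
  have key : ∀ {γ δ : 𝕂}, γ ∈ Γ → δ ∈ Γ → γ ≤ δ → χ δ = χ γ * χ (δ - γ) := by
    intro γ δ hγ hδ hle
    rw [← h.add γ hγ _ (Γ.sub_mem hδ hγ), add_sub_cancel]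
  rcases le_total γ δ with hle | hle
  · refine ⟨γ, hγ, h0, a + χ (δ - γ) * a', H.add_mem ha (H.mul_mem (h.mem _ (Γ.sub_mem hδ hγ)
      (sub_nonneg.mpr hle)) ha'), fun i => b i + b' i, fun i => H.add_mem (hb i) (hb' i), ?_⟩
    rw [key hγ hδ hle]
    simp only [mul_add, Finset.sum_add_distrib]
    ring
  · refine ⟨δ, hδ, h0', χ (γ - δ) * a + a', H.add_mem (H.mul_mem (h.mem _ (Γ.sub_mem hγ hδ)
      (sub_nonneg.mpr hle)) ha) ha', fun i => b i + b' i, fun i => H.add_mem (hb i) (hb' i), ?_⟩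
    rw [key hδ hγ hle]
    simp only [mul_add, Finset.sum_add_distrib]
    ring

theorem JJ.mul {f c : Ω} (hf : JJ Γ χ y H f) (hc : c ∈ H) : JJ Γ χ y H (c * f) := by
  obtain ⟨γ, hγ, h0, a, ha, b, hb, rfl⟩ := hf
  refine ⟨γ, hγ, h0, c * a, H.mul_mem hc ha, fun i => c * b i, fun i => H.mul_mem hc (hb i), ?_⟩
  rw [mul_add, Finset.mul_sum]
  congr 1
  · ring
  · exact Finset.sum_congr rfl fun i _ => by ring

theorem JJ.neg {f : Ω} (hf : JJ Γ χ y H f) : JJ Γ χ y H (-f) := by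
  have := hf.mul (H.neg_mem H.one_mem)
  rwa [neg_one_mul] at this

theorem MF.JJ_sub (h : MF v Γ χ y H) {f g : Ω} (hf : JJ Γ χ y H f) (hg : JJ Γ χ y H g) :
    JJ Γ χ y H (f - g) := by
  rw [sub_eq_add_neg]
  exact h.JJ_add hf hg.neg

theorem MF.JJ_sum (h : MF v Γ χ y H) {ι : Type*} (s : Finset ι) (f : ι → Ω)
    (hf : ∀ i ∈ s, JJ Γ χ y H (f i)) : JJ Γ χ y H (∑ i ∈ s, f i) := by
  classical
  induction s using Finset.induction_on with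
  | empty => simpa using h.JJ_zero
  | insert a s ha ih =>
    rw [Finset.sum_insert ha]
    exact h.JJ_add (hf a (Finset.mem_insert_self a s))
      (ih fun i hi => hf i (Finset.mem_insert_of_mem hi))

theorem JJ_chi {γ : 𝕂} (hγ : γ ∈ Γ) (h0 : 0 < γ) {a : Ω} (ha : a ∈ H) :
    JJ Γ χ y H (χ γ * a) :=
  ⟨γ, hγ, h0, a, ha, 0, fun _ => H.zero_mem, by simp⟩

theorem MF.JJ_mem (h : MF v Γ χ y H) {f : Ω} (hf : JJ Γ χ y H f) : f ∈ H := by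
  obtain ⟨γ, hγ, h0, a, ha, b, hb, rfl⟩ := hf
  exact H.add_mem (H.mul_mem (h.mem _ hγ h0.le) ha)
    (H.sum_mem fun i _ => H.mul_mem (h.y_mem i) (hb i))

theorem MF.JJ_vpos (h : MF v Γ χ y H) {f : Ω} (hf : JJ Γ χ y H f) : VPos v f := by
  obtain ⟨γ, hγ, h0, a, ha, b, hb, rfl⟩ := hf
  have h1 : VPos v (χ γ) := fun _ => by rw [h.val γ hγ]; exact h0
  refine (h1.mul (h.nonneg a ha)).add ?_
  classical
  have : ∀ s : Finset (Fin d), VPos v (∑ i ∈ s, y i * b i) := by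
    intro s
    induction s using Finset.induction_on with
    | empty => simpa using VPos.zero
    | insert a s ha ih =>
      rw [Finset.sum_insert ha]
      exact ((h.y_pos a).mul (h.nonneg _ (hb a))).add ih
  exact this _

/-- Congruence of products. -/
theorem MF.JJ_mul_sub (h : MF v Γ χ y H) {f g f' g' : Ω} (hf : JJ Γ χ y H (f - f'))
    (hg : JJ Γ χ y H (g - g')) (hfm : f ∈ H) (hgm : g' ∈ H) :
    JJ Γ χ y H (f * g - f' * g') := by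
  have e : f * g - f' * g' = f * (g - g') + g' * (f - f') := by ring
  rw [e]
  exact h.JJ_add (hg.mul hfm) (hf.mul hgm)

theorem MF.JJ_pow_sub (h : MF v Γ χ y H) {f f' : Ω} (hf : JJ Γ χ y H (f - f')) (hfm : f ∈ H)
    (hfm' : f' ∈ H) (m : ℕ) : JJ Γ χ y H (f ^ m - f' ^ m) := by
  induction m with
  | zero => simpa using h.JJ_zero
  | succ m ih =>
    rw [pow_succ, pow_succ]
    exact h.JJ_mul_sub ih hf (H.pow_mem hfm m) hfm'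

/-- Congruence of inverses. -/
theorem JJ.inv_sub {f f' : Ω} (hf : JJ Γ χ y H (f - f')) (h0 : f ≠ 0)
    (h0' : f' ≠ 0) (hi : f⁻¹ ∈ H) (hi' : f'⁻¹ ∈ H) : JJ Γ χ y H (f⁻¹ - f'⁻¹) := by
  have e : f⁻¹ - f'⁻¹ = (-(f⁻¹ * f'⁻¹)) * (f - f') := by
    field_simp
    ring
  rw [e]
  exact hf.mul (H.neg_mem (H.mul_mem hi hi'))

/-- A unit is a constant modulo `(y, χ(> 0))`. -/
theorem exists_const (res : ∀ g : Ω, g ≠ 0 → v g = 0 → ∃ c : k, c ≠ 0 ∧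
    VPos v (g - algebraMap k Ω c)) (hgen : ∀ f ∈ H, VPos v f → JJ Γ χ y H f) {ε : Ω}
    (hε : ε ∈ H) (h0 : ε ≠ 0) (hv : v ε = 0) :
    ∃ c : k, c ≠ 0 ∧ JJ Γ χ y H (ε - algebraMap k Ω c) := by
  obtain ⟨c, hc, h1⟩ := res ε h0 hv
  exact ⟨c, hc, hgen _ (H.sub_mem hε (H.algebraMap_mem c)) h1⟩

end Basic

end Pool.Agent.ALLh43
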