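import Pool.Agent.Lib.ALL_h43.Step

/-!
# The new parameter: `X = z - ψ` is a monomial times a unit of the new henselian ring
-/

set_option autoImplicit false

open Polynomial

namespace Pool.Agent.ALLh43

open Pool.Agent.TAO

universe u w

variable {k Ω : Type u} [Field k] [Field Ω] [Algebra k Ω] {𝕂 : Type w} [Field 𝕂] [LinearOrder 𝕂]
  [IsStrictOrderedRing 𝕂] {v : OVal 𝕂 Ω}

theorem vpos_sum {ι : Type*} (s : Finset ι) (f : ι → Ω) (h : ∀ i ∈ s, VPos v (f i)) :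
    VPos v (∑ i ∈ s, f i) := by
  classical
  induction s using Finset.induction_on with
  | empty => simpa using VPos.zero
  | insert a s ha ih =>
    rw [Finset.sum_insert ha]
    exact (h a (Finset.mem_insert_self a s)).add (ih fun i hi => h i (Finset.mem_insert_of_mem hi))

/-- The coefficients `P j` (`j ≤ N`): the term of degree one dominates at `X`. -/
structure Dom (v : OVal 𝕂 Ω) (N : ℕ) (P : ℕ → Ω) (X : Ω) : Prop where
  X_ne : X ≠ 0
  one_le : 1 ≤ N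
  P1 : P 1 ≠ 0
  lt : ∀ j ≤ N, j ≠ 1 → P j ≠ 0 → v (P 1) + v X < v (P j) + j * v X

theorem Dom.val {N : ℕ} {P : ℕ → Ω} {X : Ω} (h : Dom v N P X) :
    ∑ j ∈ Finset.range (N + 1), P j * X ^ j ≠ 0 ∧
      v (∑ j ∈ Finset.range (N + 1), P j * X ^ j) = v (P 1) + v X := by
  classical
  have h1 : (1 : ℕ) ∈ Finset.range (N + 1) := Finset.mem_range.mpr (by have := h.one_le; omega)
  have hPX : P 1 * X ≠ 0 := mul_ne_zero h.P1 h.X_ne
  have e : ∑ j ∈ Finset.range (N + 1), P j * X ^ j = P 1 * X *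
      (1 + ∑ j ∈ (Finset.range (N + 1)).erase 1, P j * X ^ j / (P 1 * X)) := by
    rw [mul_add, mul_one, Finset.mul_sum, ← Finset.add_sum_erase _ _ h1, pow_one]
    congr 1
    refine Finset.sum_congr rfl fun j _ => ?_
    rw [mul_div_cancel₀ _ hPX]
  have hv := val_add_vpos (v := v) one_ne_zero v.map_one
    (vpos_sum ((Finset.range (N + 1)).erase 1) (fun j => P j * X ^ j / (P 1 * X)) fun j hj => by
      intro h0
      have hj1 := Finset.ne_of_mem_erase hj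
      have hjN : j ≤ N := by
        have := Finset.mem_range.mp (Finset.mem_of_mem_erase hj)
        omega
      have hPj : P j ≠ 0 := fun h2 => h0 (by rw [h2, zero_mul, zero_div])
      rw [v.map_div (mul_ne_zero hPj (pow_ne_zero _ h.X_ne)) hPX,
        v.map_mul hPj (pow_ne_zero _ h.X_ne), v.map_mul h.P1 h.X_ne, v.map_pow h.X_ne]
      have := h.lt j hjN hj1 hPj
      linarith)
  rw [e]
  refine ⟨mul_ne_zero hPX hv.1, ?_⟩
  rw [v.map_mul hPX hv.1, hv.2, v.map_mul h.P1 h.X_ne, add_zero]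

/-- The old data `Γ, χ, y, S` and the new data `Γ + ℤ κ, χ', y, H`, `κ = v u`,
`W = u ^ q / χ (q κ)`. -/
structure NewF (v : OVal 𝕂 Ω) (Γ : AddSubgroup 𝕂) (χ : 𝕂 → Ω) {d : ℕ} (y : Fin d → Ω)
    (S : Subalgebra k Ω) (u : Ω) (κ : 𝕂) (q : ℕ) (χ' : 𝕂 → Ω) (n : 𝕂 → ℤ → ℤ)
    (H : Subalgebra k Ω) : Prop where
  old : MF v Γ χ y S
  gen : ∀ f ∈ S, VPos v f → JJ Γ χ y S f
  new : MF v (ext Γ κ) χ' y H
  le : S ≤ H
  u_ne : u ≠ 0
  u_val : v u = κ
  q_pos : 0 < q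
  qκ : (q : 𝕂) * κ ∈ Γ
  W_mem : u ^ q / χ ((q : 𝕂) * κ) ∈ H
  eq : ∀ γ ∈ Γ, ∀ m : ℤ, χ γ * u ^ m =
    χ' (γ + m * κ) * (u ^ q / χ ((q : 𝕂) * κ)) ^ n γ m
  dif : ∀ γ ∈ Γ, ∀ δ ∈ Γ, ∀ m m' : ℤ, γ + m * κ = δ + m' * κ →
    m - m' = q * (n γ m - n δ m')
  root : ∀ G : Polynomial Ω, (∀ j, G.coeff j ∈ H) → ∀ a : Ω, v.Ge 0 a → G.eval a = 0 →
    G.derivative.eval a ≠ 0 → v (G.derivative.eval a) = 0 → a ∈ H

namespace NewF

variable {Γ : AddSubgroup 𝕂} {χ : 𝕂 → Ω} {d : ℕ} {y : Fin d → Ω} {S H : Subalgebra k Ω} {u : Ω}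
  {κ : 𝕂} {q : ℕ} {χ' : 𝕂 → Ω} {n : 𝕂 → ℤ → ℤ}

theorem W_ne (h : NewF v Γ χ y S u κ q χ' n H) : u ^ q / χ ((q : 𝕂) * κ) ≠ 0 :=
  div_ne_zero (pow_ne_zero _ h.u_ne) (h.old.ne _ h.qκ)

theorem W_val (h : NewF v Γ χ y S u κ q χ' n H) : v (u ^ q / χ ((q : 𝕂) * κ)) = 0 := by
  rw [v.map_div (pow_ne_zero _ h.u_ne) (h.old.ne _ h.qκ), v.map_pow h.u_ne, h.u_val,
    h.old.val _ h.qκ, sub_self]

theorem W_zpow_mem (h : NewF v Γ χ y S u κ q χ' n H) (m : ℤ) :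
    (u ^ q / χ ((q : 𝕂) * κ)) ^ m ∈ H := by
  obtain ⟨m, rfl | rfl⟩ := m.eq_nat_or_neg
  · rw [zpow_natCast]
    exact H.pow_mem h.W_mem m
  · rw [zpow_neg, zpow_natCast, ← inv_pow]
    exact H.pow_mem (h.new.inv _ h.W_mem h.W_ne h.W_val) m

/-- Old monomials in terms of the new ones. -/
theorem chi_eq (h : NewF v Γ χ y S u κ q χ' n H) {γ : 𝕂} (hγ : γ ∈ Γ) :
    χ γ = χ' γ * (u ^ q / χ ((q : 𝕂) * κ)) ^ n γ 0 := by
  have h1 := h.eq γ hγ 0
  rw [zpow_zero, mul_one, Int.cast_zero, zero_mul, add_zero] at h1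
  exact h1

theorem JJ_old (h : NewF v Γ χ y S u κ q χ' n H) {f : Ω} (hf : JJ Γ χ y S f) :
    JJ (ext Γ κ) χ' y H f := by
  obtain ⟨γ, hγ, h0, a, ha, b, hb, rfl⟩ := hf
  refine ⟨γ, le_ext Γ κ hγ, h0, (u ^ q / χ ((q : 𝕂) * κ)) ^ n γ 0 * a,
    H.mul_mem (h.W_zpow_mem _) (h.le ha), b, fun i => h.le (hb i), ?_⟩
  rw [← mul_assoc, ← h.chi_eq hγ]

/-- A unit of `S` is a constant modulo the new ideal. -/
theorem exists_const (h : NewF v Γ χ y S u κ q χ' n H) (res : ∀ g : Ω, g ≠ 0 → v g = 0 →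
    ∃ c : k, c ≠ 0 ∧ VPos v (g - algebraMap k Ω c)) {ε : Ω} (hε : ε ∈ S) (h0 : ε ≠ 0)
    (hv : v ε = 0) : ∃ c : k, c ≠ 0 ∧ JJ (ext Γ κ) χ' y H (ε - algebraMap k Ω c) := by
  obtain ⟨c, hc, h1⟩ := ALLh43.exists_const res h.gen hε h0 hv
  exact ⟨c, hc, h.JJ_old h1⟩

/-- A monomial of `S` times a power of `u`. -/
theorem mul_zpow (h : NewF v Γ χ y S u κ q χ' n H) {f : Ω} (hf : MonIn v Γ χ S f) {δ : 𝕂}
    (hδ : δ ∈ Γ) (m : ℤ) : f * χ δ * u ^ m = χ' (v f + δ + m * κ) *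
      (u ^ q / χ ((q : 𝕂) * κ)) ^ n (v f + δ) m * (f / χ (v f)) := by
  have h1 := h.eq (v f + δ) (Γ.add_mem hf.2.1 hδ) m
  rw [← h1, h.old.add _ hf.2.1 _ hδ]
  have h2 := h.old.ne _ hf.2.1
  field_simp

variable {N : ℕ} {P : ℕ → Ω} {X : Ω}

/-- `X = χ (- v (P 1)) u θ`, `θ` a unit of `H`, constant modulo `(y, χ'(> 0))`. -/
theorem theta (h : NewF v Γ χ y S u κ q χ' n H) (res : ∀ g : Ω, g ≠ 0 → v g = 0 →
    ∃ c : k, c ≠ 0 ∧ VPos v (g - algebraMap k Ω c)) (hd : Dom v N P X)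
    (hu : u = ∑ j ∈ Finset.range (N + 1), P j * X ^ j)
    (hP : ∀ j ≤ N, P j = 0 ∨ MonIn v Γ χ S (P j)) :
    ∃ θ ∈ H, ∃ c : k, c ≠ 0 ∧ θ ≠ 0 ∧ v θ = 0 ∧ JJ (ext Γ κ) χ' y H (θ - algebraMap k Ω c) ∧
      X = χ (-v (P 1)) * u * θ := by
  classical
  have hκ : κ = v (P 1) + v X := by rw [← h.u_val, hu]; exact hd.val.2
  have h1N : 1 ≤ N := hd.one_le
  have hP1 : MonIn v Γ χ S (P 1) := (hP 1 h1N).resolve_left hd.P1
  have hΓ1 : -v (P 1) ∈ Γ := Γ.neg_mem hP1.2.1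
  have hχ1 : χ (-v (P 1)) ≠ 0 := h.old.ne _ hΓ1
  have hu0 := h.u_ne
  set X₀ : Ω := χ (-v (P 1)) * u with hX₀
  have hX₀0 : X₀ ≠ 0 := mul_ne_zero hχ1 hu0
  set θ : Ω := X / X₀ with hθ
  have hXθ : X = X₀ * θ := by rw [hθ, mul_div_cancel₀ _ hX₀0]
  have hθ0 : θ ≠ 0 := div_ne_zero hd.X_ne hX₀0
  have hθv : v θ = 0 := by
    rw [hθ, v.map_div hd.X_ne hX₀0, hX₀, v.map_mul hχ1 hu0, h.old.val _ hΓ1, h.u_val, hκ]
    ring
  set ε : Ω := P 1 / χ (v (P 1)) with hε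
  have hχv := h.old.ne _ hP1.2.1
  have hε0 : ε ≠ 0 := div_ne_zero hd.P1 hχv
  have hεv : v ε = 0 := by rw [hε, v.map_div hd.P1 hχv, h.old.val _ hP1.2.1, sub_self]
  -- the coefficients
  let p : ℕ → Ω := fun j => P j * X₀ ^ j / u
  have hp1 : p 1 = ε := by
    simp only [p, hX₀, hε, pow_one]
    rw [h.old.toMon.neg hP1.2.1]
    field_simp
  have hpJ : ∀ j ≤ N, j ≠ 1 → JJ (ext Γ κ) χ' y H (p j) := by
    intro j hj hj1
    rcases hP j hj with h0 | hm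
    · simp only [p, h0, zero_mul, zero_div]
      exact h.new.JJ_zero
    · have hδ : (j : 𝕂) * -v (P 1) ∈ Γ := by
        rw [← nsmul_eq_mul]
        exact Γ.nsmul_mem hΓ1 j
      have e : p j = P j * χ ((j : 𝕂) * -v (P 1)) * u ^ ((j : ℤ) - 1) := by
        simp only [p, hX₀]
        rw [h.old.toMon.nat_mul hΓ1, mul_pow, zpow_sub₀ hu0, zpow_natCast, zpow_one]
        field_simp
      rw [e, h.mul_zpow hm hδ]
      have h3 : 0 < v (P j) + (j : 𝕂) * -v (P 1) + ((j : ℤ) - 1 : ℤ) * κ := by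
        have := hd.lt j hj hj1 hm.1
        rw [hκ]
        push_cast
        linear_combination this
      rw [mul_assoc]
      refine JJ_chi (add_mul_mem_ext κ (Γ.add_mem hm.2.1 hδ) _) h3 ?_
      exact H.mul_mem (h.W_zpow_mem _) (h.le hm.2.2)
  have hsum : ∑ j ∈ Finset.range (N + 1), p j * θ ^ j = 1 := by
    have e : ∀ j, p j * θ ^ j = P j * X ^ j / u := by
      intro j
      simp only [p]
      rw [hXθ, mul_pow]
      ring
    rw [Finset.sum_congr rfl fun j _ => e j, ← Finset.sum_div, ← hu, div_self hu0]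
  have h1m : (1 : ℕ) ∈ Finset.range (N + 1) := Finset.mem_range.mpr (by omega)
  have hmemN : ∀ {j}, j ∈ (Finset.range (N + 1)).erase 1 → j ≤ N ∧ j ≠ 1 := by
    intro j hj
    have := Finset.mem_range.mp (Finset.mem_of_mem_erase hj)
    exact ⟨by omega, Finset.ne_of_mem_erase hj⟩
  -- the polynomial
  let G : Polynomial Ω := ∑ j ∈ Finset.range (N + 1), C (p j) * Polynomial.X ^ j - 1
  have hGeval : G.eval θ = 0 := by
    simp only [G, eval_sub, eval_finset_sum, eval_mul, eval_C, eval_pow, eval_X, eval_one]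
    rw [hsum, sub_self]
  have hGd : G.derivative.eval θ = ε + ∑ j ∈ (Finset.range (N + 1)).erase 1,
      p j * ((j : Ω) * θ ^ (j - 1)) := by
    simp only [G, derivative_sub, derivative_sum, derivative_one, sub_zero, derivative_C_mul,
      derivative_X_pow, eval_finset_sum, eval_mul, eval_C, eval_pow, eval_X, eval_natCast]
    rw [← Finset.add_sum_erase _ _ h1m, hp1]
    congr 1
    simp
  have hGv := val_add_vpos (v := v) hε0 hεv (vpos_sum ((Finset.range (N + 1)).erase 1)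
    (fun j => p j * ((j : Ω) * θ ^ (j - 1))) fun j hj => by
      have h4 := h.new.JJ_vpos (hpJ j (hmemN hj).1 (hmemN hj).2)
      refine h4.mul ?_
      have h5 : v.Ge 0 (j : Ω) := h.new.nonneg _ (by
        have := H.natCast_mem j
        exact this)
      have h6 : v.Ge 0 (θ ^ (j - 1)) := fun _ => by rw [v.map_pow hθ0, hθv, mul_zero]
      have := h5.mul h6
      rwa [add_zero] at this)
  rw [← hGd] at hGv
  have hcoeff : ∀ j, G.coeff j ∈ H := by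
    intro j
    simp only [G, coeff_sub, finset_sum_coeff, coeff_C_mul, coeff_X_pow, coeff_one]
    refine H.sub_mem (H.sum_mem fun i hi => H.mul_mem ?_ ?_) ?_
    · by_cases hi1 : i = 1
      · rw [hi1, hp1]
        exact h.le hP1.2.2
      · exact h.new.JJ_mem (hpJ i (by have := Finset.mem_range.mp hi; omega) hi1)
    · split_ifs
      · exact H.one_mem
      · exact H.zero_mem
    · split_ifs
      · exact H.one_mem
      · exact H.zero_mem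
  have hθH : θ ∈ H := h.root G hcoeff θ (fun _ => hθv.ge) hGeval hGv.1 hGv.2
  obtain ⟨c, hc, hcJ⟩ := h.exists_const res hP1.2.2 hε0 hεv
  have hεH : ε ∈ H := h.le hP1.2.2
  have hεi : ε⁻¹ ∈ H := h.new.inv _ hεH hε0 hεv
  have hcinv : (algebraMap k Ω c)⁻¹ = algebraMap k Ω c⁻¹ := (map_inv₀ _ _).symm
  have hc0 : algebraMap k Ω c ≠ 0 := (_root_.map_ne_zero _).mpr hc
  refine ⟨θ, hθH, c⁻¹, inv_ne_zero hc, hθ0, hθv, ?_, hXθ⟩
  have h7 : JJ (ext Γ κ) χ' y H (θ - ε⁻¹) := by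
    have e : θ - ε⁻¹ = ε⁻¹ * -(∑ j ∈ (Finset.range (N + 1)).erase 1, p j * θ ^ j) := by
      rw [← Finset.add_sum_erase _ _ h1m, hp1, pow_one] at hsum
      have : ∑ j ∈ (Finset.range (N + 1)).erase 1, p j * θ ^ j = 1 - ε * θ := by
        rw [← hsum]; ring
      rw [this]
      field_simp
      ring
    rw [e]
    refine JJ.mul (JJ.neg (h.new.JJ_sum _ _ fun j hj => ?_)) hεi
    rw [mul_comm]
    exact (hpJ j (hmemN hj).1 (hmemN hj).2).mul (H.pow_mem hθH j)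
  have h8 := h.new.JJ_add h7 (JJ.inv_sub hcJ hε0 hc0 hεi (by
    rw [hcinv]; exact H.algebraMap_mem _))
  rwa [sub_add_sub_cancel, hcinv] at h8

end NewF

end Pool.Agent.ALLh43
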